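import Pool.Agent.Q67.AXI.Defs

/-!
# Project AXI (helper67), job AXI-27 (YI): the bounds at all times
-/

set_option autoImplicit false

open MeasureTheory Set Metric Filter Topology
open scoped ContDiff

namespace Pool.Agent.Q285.AXI

open H459R3.NS Pool.Agent.W268.NS Pool.Agent.Q67.VD
open Pool.Agent.Q85.CC Pool.Agent.Q85.CL Pool.Agent.TH305.AX Pool.Agent.Q67.AXI

lemma slice {T : ℝ} {u : ℝ → V → V}
    (hu : ContDiffOn ℝ ∞ (fun z : ℝ × V => u z.1 z.2) (Ioo 0 T ×ˢ univ)) {t : ℝ}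
    (ht : t ∈ Ioo 0 T) : ContDiff ℝ ∞ (u t) := by
  rw [← contDiffOn_univ]
  exact hu.comp (f := fun x : V => (t, x)) (by fun_prop) (fun x _ => ⟨ht, mem_univ _⟩)

lemma co_mono {c r h R H : ℝ} (hr : 0 < r) (h1 : r < R) (h2 : h < H) : Co c r h ⊆ Co c R H := by
  rintro x ⟨hx1, hx2⟩
  refine ⟨hx1.trans ?_, hx2.trans h2⟩
  nlinarith

lemma gsq_nn (v : V → V) (x : V) : 0 ≤ W221.NS.gsq v x :=
  Finset.sum_nonneg fun _ _ => Finset.sum_nonneg fun _ _ => sq_nonneg _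

/-- the dissipation in a smaller cylinder is integrable in time -/
lemma dis_int {T : ℝ} {O O' : Set V} {u : ℝ → V → V} (hO : O' ⊆ O)
    (h : IntegrableOn (fun z : ℝ × V => W221.NS.gsq (u z.1) z.2) (Ioo 0 T ×ˢ O)) :
    IntegrableOn (fun t => ∫ x in O', W221.NS.gsq (u t) x) (Ioo 0 T) := by
  have h1 := h.mono_set (prod_mono (Subset.refl (Ioo (0 : ℝ) T)) hO)
  rw [IntegrableOn, Measure.volume_eq_prod, ← Measure.prod_restrict] at h1
  exact h1.integral_prod_left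

theorem yi (_h1 : StmAlg) (_h2 : StmJnt) (_h3 : StmDt) (hU : StmU) (hYd : StmYd) : StmYi := by
  intro T E c R H K r h r1 h1 T₁ C' α' K' u p φ hA hK hr1 hr1r hrR hr2 hh1 hh1h hhH hh hT₁ hT₁T
    hC' hα hα2 hcut hout hcirc hW
  obtain ⟨C₀, M₀, hC₀, hM₀, hyd⟩ := hYd T E c R H K r h r1 h1 T₁ C' α' u p φ hA hK hr1 hr1r hrR hr2
    hh1 hh1h hhH hh hT₁ hT₁T hC' hα hα2 hcut hout hcirc
  obtain ⟨M, hM⟩ : ∃ M : ℝ, M = max M₀ K' := ⟨_, rfl⟩
  have hM1 : M₀ ≤ M := by rw [hM]; exact le_max_left _ _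
  have hM2 : K' ≤ M := by rw [hM]; exact le_max_right _ _
  have hM3 : 0 < M := by linarith
  obtain ⟨l, hl1, hl2, hl⟩ := hyd M hM1
  have hl0 : 0 < l := (Real.rpow_pos_of_pos hM3 _).trans_le hl1
  have hr0 : 0 < r := hr1.trans hr1r
  have hsub : Co c r h ⊆ Co c R H := co_mono hr0 hrR hhH
  obtain ⟨G, hG⟩ : ∃ G : ℝ → ℝ, G = fun t => ∫ x in Co c r h, W221.NS.gsq (u t) x := ⟨_, rfl⟩
  obtain ⟨A, hAd⟩ : ∃ A : ℝ, A = C₀ * M ^ (3 / 8 : ℝ) := ⟨_, rfl⟩
  have hA0 : 0 ≤ A := by rw [hAd]; positivity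
  have hGint : IntegrableOn G (Ioo 0 T) := by rw [hG]; exact dis_int hsub hA.dis
  have hGnn : ∀ t, 0 ≤ G t := by
    intro t
    rw [hG]
    exact integral_nonneg fun x => gsq_nn _ x
  obtain ⟨Y, hY⟩ : ∃ Y : ℝ → ℝ, Y = fun s => (∫ x, φ x ^ 2 * JJ (u s) x ^ 2)
      + l * ∫ x, φ x ^ 2 * OO (u s) x ^ 2 := ⟨_, rfl⟩
  have hder : ∀ t ∈ Ico T₁ T, ∃ D' : ℝ, HasDerivAt Y D' t ∧ D' ≤ A * (1 + G t) := by
    intro t ht
    obtain ⟨D', hD1, hD2⟩ := hl t ht (fun x hx => (hW t ht x hx).trans hM2)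
    refine ⟨D', by rw [hY]; exact hD1, hD2.trans ?_⟩
    have g1 : ∀ f : V → ℝ, 0 ≤ GD f := fun f =>
      integral_nonneg fun x => Finset.sum_nonneg fun _ _ => sq_nonneg _
    have g2 := g1 (fun x => φ x * JJ (u t) x)
    have g3 := mul_nonneg hl0.le (g1 (fun x => φ x * OO (u t) x))
    rw [hAd, hG]
    linarith
  choose! D' hD1 hD2 using hder
  obtain ⟨D, hD⟩ : ∃ D : ℝ, D = ∫ s in Ioo 0 T, G s := ⟨_, rfl⟩
  have hD0 : 0 ≤ D := by rw [hD]; exact integral_nonneg fun x => hGnn x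
  have key : ∀ t ∈ Ico T₁ T, Y t ≤ Y T₁ + A * (T + D) := by
    intro t ht
    have hsub2 : Icc T₁ t ⊆ Ioo 0 T := fun s hs => ⟨hT₁.trans_le hs.1, hs.2.trans_lt ht.2⟩
    have hGi : IntegrableOn G (Icc T₁ t) := hGint.mono_set hsub2
    have h4 := intervalIntegral.sub_le_integral_of_hasDeriv_right_of_le (g := Y) (g' := D')
      (φ := fun s => A * (1 + G s)) ht.1
      (fun s hs => (hD1 s ⟨hs.1, hs.2.trans_lt ht.2⟩).continuousAt.continuousWithinAt)
      (fun s hs => (hD1 s ⟨hs.1.le, hs.2.trans ht.2⟩).hasDerivWithinAt)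
      (by
        have : IntegrableOn (fun _ : ℝ => (1 : ℝ)) (Icc T₁ t) :=
          integrableOn_const (by rw [Real.volume_Icc]; exact ENNReal.ofReal_ne_top)
        exact (this.add hGi).const_mul A)
      (fun s hs => hD2 s ⟨hs.1.le, hs.2.trans ht.2⟩)
    have h5 : ∫ s in T₁..t, A * (1 + G s) ≤ A * (T + D) := by
      rw [intervalIntegral.integral_const_mul]
      apply mul_le_mul_of_nonneg_left _ hA0
      have hii : IntervalIntegrable G volume T₁ t :=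
        (intervalIntegrable_iff_integrableOn_Icc_of_le ht.1).2 hGi
      rw [intervalIntegral.integral_add (by simp) hii]
      rw [intervalIntegral.integral_const, smul_eq_mul, mul_one]
      have h6 : ∫ s in T₁..t, G s ≤ D := by
        rw [intervalIntegral.integral_of_le ht.1, hD]
        refine setIntegral_mono_set hGint ?_ ?_
        · exact Eventually.of_forall fun s => hGnn s
        · exact (Ioc_subset_Icc_self.trans hsub2).eventuallyLE
      have := ht.2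
      linarith
    linarith
  obtain ⟨B, hB⟩ : ∃ B : ℝ, B = max ((Y T₁ + A * (T + D)) / l) 0 := ⟨_, rfl⟩
  have hB0 : 0 ≤ B := by rw [hB]; exact le_max_right _ _
  have hOO : ∀ t ∈ Ico T₁ T, ∫ x, φ x ^ 2 * OO (u t) x ^ 2 ≤ B := by
    intro t ht
    have h4 := key t ht
    rw [hY] at h4
    simp only at h4
    have h5 : 0 ≤ ∫ x, φ x ^ 2 * JJ (u t) x ^ 2 := integral_nonneg fun x => by positivity
    have h6 : ∫ x, φ x ^ 2 * OO (u t) x ^ 2 ≤ (Y T₁ + A * (T + D)) / l := by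
      rw [le_div_iff₀ hl0, hY]
      simp only
      linarith
    exact h6.trans (by rw [hB]; exact le_max_left _ _)
  have hr1' : r ≤ 1 := by
    by_contra hcon
    push Not at hcon
    have : Real.exp (-2) < 1 := by
      rw [Real.exp_lt_one_iff]
      norm_num
    nlinarith
  obtain ⟨C₁, hC₁, hU'⟩ := hU K c r h r1 h1 hK hr1 hr1r hr1' hh1 hh1h hh
  refine ⟨B + C₁ * (1 + B), by positivity, fun t ht => ?_⟩
  have ht' : t ∈ Ioo 0 T := ⟨hT₁.trans_le ht.1, ht.2⟩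
  obtain ⟨-, u2, -, u4⟩ := hU' (u t) φ (slice hA.smooth_u ht') (hA.axi t ht')
    (fun x hx => hA.divfree t ht' x (hsub hx)) hcut (hout t ht)
  have hO := hOO t ht
  have h7 : C₁ * (1 + ∫ x, φ x ^ 2 * OO (u t) x ^ 2) ≤ C₁ * (1 + B) :=
    mul_le_mul_of_nonneg_left (by linarith) hC₁
  have h8 : 0 ≤ C₁ * (1 + B) := by positivity
  exact ⟨by linarith, by linarith, by linarith⟩

end Pool.Agent.Q285.AXI
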