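import Pool.Agent.Q67.AXI.Defs
import Pool.Agent.Q285.AXI.Yi
import Pool.Agent.W335.MD.CT

/-!
# Project AXI (helper67), job AXI-29 (FIN): the scaled dissipation is small near the centre
-/

set_option autoImplicit false

open MeasureTheory Set Metric Filter Topology
open scoped ContDiff

namespace Pool.Agent.Q285.AXI

open H459R3.NS Pool.Agent.W268.NS Pool.Agent.Q67.VD
open Pool.Agent.Q85.CC Pool.Agent.Q85.CL Pool.Agent.TH305.AX Pool.Agent.Q67.AXI

/-- points near the centre -/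
lemma near_centre {c r h ρ s : ℝ} {x y : V} (hr : 0 < r) (hh : 0 < h) (h1 : ρ ≤ r / 4)
    (h2 : ρ ≤ h / 4) (h3 : ρ ≤ 1 / 4) (hx : ‖x - ![0, 0, c]‖ ≤ ρ) (hs : s ≤ ρ)
    (hy : y ∈ ball x s) : y ∈ Co c r h ∧ y ∈ Cy c r h ∧ sg y ≤ 1 := by
  have hρ : 0 ≤ ρ := (norm_nonneg _).trans hx
  have h4 : ‖y - ![0, 0, c]‖ ≤ 2 * ρ := by
    rw [mem_ball, dist_eq_norm] at hy
    calc ‖y - ![0, 0, c]‖ = ‖(y - x) + (x - ![0, 0, c])‖ := by rw [sub_add_sub_cancel]
      _ ≤ ‖y - x‖ + ‖x - ![0, 0, c]‖ := norm_add_le _ _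
      _ ≤ _ := by linarith
  have h5 := (norm_le_pi_norm (y - ![0, 0, c]) 0).trans h4
  have h6 := (norm_le_pi_norm (y - ![0, 0, c]) 1).trans h4
  have h7 := (norm_le_pi_norm (y - ![0, 0, c]) 2).trans h4
  simp only [Pi.sub_apply, Matrix.cons_val_zero, Matrix.cons_val_one, Matrix.cons_val,
    Real.norm_eq_abs, sub_zero] at h5 h6 h7
  have e1 : y 0 ^ 2 ≤ (2 * ρ) ^ 2 := sq_le_sq' (by linarith [(abs_le.1 h5).1]) (abs_le.1 h5).2
  have e2 : y 1 ^ 2 ≤ (2 * ρ) ^ 2 := sq_le_sq' (by linarith [(abs_le.1 h6).1]) (abs_le.1 h6).2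
  have e3 : sg y ≤ 8 * ρ ^ 2 := by
    unfold sg
    nlinarith
  have e4 : sg y < r ^ 2 := by nlinarith
  have e5 : |y 2 - c| < h := by linarith
  exact ⟨⟨e4, e5⟩, ⟨e4.le, e5.le⟩, by nlinarith⟩

/-- the plane has measure zero -/
lemma ae_sg : ∀ᵐ x : V, sg x ≠ 0 := by
  have h1 : volume ((LinearMap.ker (LinearMap.proj 0 : V →ₗ[ℝ] ℝ) : Submodule ℝ V) : Set V) = 0 := by
    apply Measure.addHaar_submodule
    intro h
    rw [LinearMap.ker_eq_top] at h
    have := congrArg (fun f : V →ₗ[ℝ] ℝ => f (fun _ => 1)) h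
    simp at this
  have h2 : ∀ᵐ x : V, x ∉ ((LinearMap.ker (LinearMap.proj 0 : V →ₗ[ℝ] ℝ) : Submodule ℝ V) : Set V) :=
    measure_eq_zero_iff_ae_notMem.1 h1
  filter_upwards [h2] with x hx hsg
  apply hx
  have : x 0 = 0 := by
    unfold sg at hsg
    nlinarith [sq_nonneg (x 0), sq_nonneg (x 1)]
  simpa using this

lemma gr2_nn (f : V → ℝ) (x : V) : 0 ≤ gr2 f x := Finset.sum_nonneg fun _ _ => sq_nonneg _

lemma gr2_c {f : V → ℝ} (hf : ContDiff ℝ ∞ f) : Continuous (gr2 f) := by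
  unfold gr2 pd
  refine continuous_finsetSum _ fun i _ => ?_
  exact ((hf.continuous_fderiv (by simp)).clm_apply continuous_const).pow 2

lemma ball_int {f : V → ℝ} (hf : Continuous f) (x : V) (s : ℝ) : IntegrableOn f (ball x s) :=
  (hf.continuousOn.integrableOn_compact (isCompact_closedBall x s)).mono_set ball_subset_closedBall

lemma cy_int {f : V → ℝ} (hf : Continuous f) (c r h : ℝ) (hr : 0 ≤ r) : IntegrableOn f (Cy c r h) := by
  refine (hf.continuousOn.integrableOn_compact (isCompact_closedBall (![0, 0, c] : V)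
    (max r h))).mono_set ?_
  rintro y ⟨hy1, hy2⟩
  have hm : 0 ≤ max r h := hr.trans (le_max_left _ _)
  rw [mem_closedBall, dist_eq_norm, pi_norm_le_iff_of_nonneg hm]
  unfold sg at hy1
  have e1 : |y 0| ≤ r := abs_le_of_sq_le_sq (by nlinarith [sq_nonneg (y 1)]) hr
  have e2 : |y 1| ≤ r := abs_le_of_sq_le_sq (by nlinarith [sq_nonneg (y 0)]) hr
  intro i
  fin_cases i
  · simpa using e1.trans (le_max_left _ _)
  · simpa using e2.trans (le_max_left _ _)
  · simpa using hy2.trans (le_max_right _ _)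

/-- the volume of a small ball -/
lemma vol_ball {x : V} {s : ℝ} (hs : 0 < s) (hs1 : s ≤ 1) : (volume : Measure V).real (ball x s) ≤ 8 := by
  rw [Measure.real, Real.volume_pi_ball x hs, ENNReal.toReal_ofReal (by positivity)]
  simp only [Fintype.card_fin]
  have : 2 * s ≤ 2 := by linarith
  calc (2 * s) ^ 3 ≤ 2 ^ 3 := pow_le_pow_left₀ (by positivity) this 3
    _ = 8 := by norm_num

/-- integrals over balls of a jointly continuous function are integrable in time -/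
lemma joint_int {T : ℝ} {g : ℝ → V → ℝ}
    (hg : ContinuousOn (fun z : ℝ × V => g z.1 z.2) (Ioo 0 T ×ˢ univ)) {α β : ℝ} (hα : 0 < α)
    (hβ : β < T) (x : V) (s : ℝ) : IntegrableOn (fun t => ∫ y in ball x s, g t y) (Ioo α β) := by
  have h1 : IntegrableOn (fun z : ℝ × V => g z.1 z.2) (Icc α β ×ˢ closedBall x s) := by
    apply ContinuousOn.integrableOn_compact (isCompact_Icc.prod (isCompact_closedBall x s))
    exact hg.mono (prod_mono (fun t ht => ⟨hα.trans_le ht.1, ht.2.trans_lt hβ⟩) (subset_univ _))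
  have h2 := h1.mono_set (prod_mono Ioo_subset_Icc_self ball_subset_closedBall)
  rw [IntegrableOn, Measure.volume_eq_prod, ← Measure.prod_restrict] at h2
  exact h2.integral_prod_left

theorem fin (hAlg : StmAlg) (_h2 : StmAxF) (hDiv : StmDiv) (hJnt : StmJnt) (hCac : StmCac) :
    StmFin := by
  intro T E c R H r h T₁ K u p hA hr hrR hh hhH hT₁ hT₁T hK hb ε hε
  have hsub : Co c r h ⊆ Co c R H := co_mono hr hrR hhH
  have hsm : ∀ t ∈ Ioo 0 T, ContDiff ℝ ∞ (UU (u t)) ∧ ContDiff ℝ ∞ (WW (u t)) ∧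
      ContDiff ℝ ∞ (JJ (u t)) ∧ ContDiff ℝ ∞ (OO (u t)) := fun t ht =>
    (hAlg (u t) (slice hA.smooth_u ht) (hA.axi t ht)).1
  obtain ⟨C₁, hC₁, hdiv⟩ := hDiv
  obtain ⟨C₂, ρ, T₂, hC₂, hρ, hT₁₂, hT₂T, hcac⟩ := hCac T E c R H r h T₁ K u p hA hr hrR hh hhH hT₁
    hT₁T hK (fun t ht => ⟨(hb t ht).1, by
      have ht' : t ∈ Ioo 0 T := ⟨hT₁.trans_le ht.1, ht.2⟩
      obtain ⟨s1, s2, s3, s4⟩ := hsm t ht'
      refine le_trans ?_ (hb t ht).2
      apply integral_mono_of_nonneg (Eventually.of_forall fun x => sq_nonneg _)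
      · exact cy_int (((s1.continuous.pow 2).add (gr2_c s1)).add (s4.continuous.pow 2)) c r h hr.le
      · refine Eventually.of_forall fun x => ?_
        have := gr2_nn (UU (u t)) x
        simp only
        nlinarith [sq_nonneg (OO (u t) x)]⟩)
  -- the radii
  obtain ⟨ρ', hρ'⟩ : ∃ ρ' : ℝ, ρ' = min (min ρ (r / 4)) (min (h / 4) (1 / 4)) := ⟨_, rfl⟩
  have hρ'0 : 0 < ρ' := by
    rw [hρ']
    exact lt_min (lt_min hρ (by positivity)) (lt_min (by positivity) (by norm_num))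
  have q1 : ρ' ≤ ρ := by rw [hρ']; exact (min_le_left _ _).trans (min_le_left _ _)
  have q2 : ρ' ≤ r / 4 := by rw [hρ']; exact (min_le_left _ _).trans (min_le_right _ _)
  have q3 : ρ' ≤ h / 4 := by rw [hρ']; exact (min_le_right _ _).trans (min_le_left _ _)
  have q4 : ρ' ≤ 1 / 4 := by rw [hρ']; exact (min_le_right _ _).trans (min_le_right _ _)
  obtain ⟨C₃, hC₃⟩ : ∃ C₃ : ℝ, C₃ = C₁ * (K + K ^ 2 * 8) + C₁ * C₂ := ⟨_, rfl⟩
  have hC₃0 : 0 ≤ C₃ := by rw [hC₃]; positivity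
  obtain ⟨r₁, hr₁⟩ : ∃ r₁ : ℝ, r₁ = min (min ρ' (T₂ - T₁)) (ε / (C₃ + 1)) := ⟨_, rfl⟩
  have hr₁0 : 0 < r₁ := by
    rw [hr₁]
    exact lt_min (lt_min hρ'0 (by linarith)) (by positivity)
  have q5 : r₁ ≤ ρ' := by rw [hr₁]; exact (min_le_left _ _).trans (min_le_left _ _)
  have q6 : r₁ ≤ T₂ - T₁ := by rw [hr₁]; exact (min_le_left _ _).trans (min_le_right _ _)
  have q7 : r₁ ≤ ε / (C₃ + 1) := by rw [hr₁]; exact min_le_right _ _
  refine ⟨T₂, r₁, ρ', by linarith, hT₂T, hr₁0, hρ'0, fun t ht x hx s hs => ?_⟩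
  rw [mem_closedBall, dist_eq_norm] at hx
  have hs1 : s ≤ 1 := by linarith [hs.2]
  have hs2 : s ^ 2 ≤ T₂ - T₁ := by nlinarith [hs.1, hs.2]
  have hs3 : T₁ < t - s ^ 2 := by linarith [ht.1]
  -- the bound at one time
  have one : ∀ τ ∈ Ioo (t - s ^ 2) t, W221.NS.B2 x s (u τ) ≤
      C₁ * (K + K ^ 2 * 8) + C₁ * ∫ y in ball x s, gr2 (WW (u τ)) y := by
    intro τ hτ
    have hτ1 : τ ∈ Ico T₁ T := ⟨by linarith [hτ.1], hτ.2.trans ht.2⟩
    have hτ' : τ ∈ Ioo 0 T := ⟨hT₁.trans_le hτ1.1, hτ1.2⟩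
    obtain ⟨s1, s2, s3, s4⟩ := hsm τ hτ'
    obtain ⟨b1, b2⟩ := hb τ hτ1
    have hc1 : Continuous fun y => UU (u τ) y ^ 2 + gr2 (UU (u τ)) y + OO (u τ) y ^ 2 :=
      ((s1.continuous.pow 2).add (gr2_c s1)).add (s4.continuous.pow 2)
    have hc2 : Continuous fun y => WW (u τ) y ^ 2 := s2.continuous.pow 2
    have hc3 : Continuous fun y => gr2 (WW (u τ)) y := gr2_c s2
    have i1 := ball_int hc1 x s
    have i2 := ball_int hc2 x s
    have i3 := ball_int hc3 x s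
    have hmem : ∀ y ∈ ball x s, y ∈ Co c r h ∧ y ∈ Cy c r h ∧ sg y ≤ 1 := fun y hy =>
      near_centre hr hh q2 q3 q4 hx (hs.2.trans q5) hy
    have e1 : W221.NS.B2 x s (u τ) ≤ ∫ y in ball x s,
        C₁ * ((UU (u τ) y ^ 2 + gr2 (UU (u τ)) y + OO (u τ) y ^ 2) + WW (u τ) y ^ 2 +
          gr2 (WW (u τ)) y) := by
      unfold W221.NS.B2
      apply integral_mono_of_nonneg (Eventually.of_forall fun y => gsq_nn _ y)
      · exact ((i1.add i2).add i3).const_mul C₁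
      · rw [EventuallyLE, ae_restrict_iff' measurableSet_ball]
        filter_upwards [ae_sg] with y hy hyb
        obtain ⟨m1, m2, m3⟩ := hmem y hyb
        have hd := (hdiv (Co c R H) (u τ) hA.openO (slice hA.smooth_u hτ') (hA.axi τ hτ')
          (fun z hz => hA.divfree τ hτ' z hz) y (hsub m1) hy).2
        refine hd.trans (mul_le_mul_of_nonneg_left ?_ hC₁.le)
        have g1 := gr2_nn (UU (u τ)) y
        have g2 := gr2_nn (WW (u τ)) y
        have g3 := sq_nonneg (OO (u τ) y)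
        have g4 : sg y * (gr2 (UU (u τ)) y + gr2 (WW (u τ)) y + OO (u τ) y ^ 2) ≤
            1 * (gr2 (UU (u τ)) y + gr2 (WW (u τ)) y + OO (u τ) y ^ 2) :=
          mul_le_mul_of_nonneg_right m3 (by positivity)
        linarith
    have e2 : ∫ y in ball x s, (UU (u τ) y ^ 2 + gr2 (UU (u τ)) y + OO (u τ) y ^ 2) ≤ K := by
      refine le_trans ?_ b2
      refine setIntegral_mono_set (cy_int hc1 c r h hr.le) ?_ ?_
      · refine Eventually.of_forall fun y => ?_
        have := gr2_nn (UU (u τ)) y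
        simp only [Pi.zero_apply]
        positivity
      · exact LE.le.eventuallyLE (show ball x s ⊆ Cy c r h from
          fun y hy => (hmem y hy).2.1)
    have e3 : ∫ y in ball x s, WW (u τ) y ^ 2 ≤ K ^ 2 * 8 := by
      have h4 : ∫ y in ball x s, WW (u τ) y ^ 2 ≤ ∫ _ in ball x s, K ^ 2 := by
        apply setIntegral_mono_on i2 (integrableOn_const (by
          exact measure_ball_lt_top.ne)) measurableSet_ball
        intro y hy
        have := b1 y (hmem y hy).2.1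
        rw [← sq_abs]
        exact pow_le_pow_left₀ (abs_nonneg _) this 2
      rw [setIntegral_const, smul_eq_mul, mul_comm] at h4
      exact h4.trans (mul_le_mul_of_nonneg_left (vol_ball hs.1 hs1) (sq_nonneg K))
    have e4 : ∫ y in ball x s,
        ((UU (u τ) y ^ 2 + gr2 (UU (u τ)) y + OO (u τ) y ^ 2) + WW (u τ) y ^ 2 +
          gr2 (WW (u τ)) y) =
        (∫ y in ball x s, (UU (u τ) y ^ 2 + gr2 (UU (u τ)) y + OO (u τ) y ^ 2)) +
        (∫ y in ball x s, WW (u τ) y ^ 2) + ∫ y in ball x s, gr2 (WW (u τ)) y :=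
      (integral_add (i1.add i2) i3).trans (congrArg (· + _) (integral_add i1 i2))
    rw [integral_const_mul, e4] at e1
    refine e1.trans ?_
    rw [← mul_add]
    apply mul_le_mul_of_nonneg_left _ hC₁.le
    linarith
  -- integration in time
  have hj : IntegrableOn (fun τ => ∫ y in ball x s, gr2 (WW (u τ)) y) (Ioo (t - s ^ 2) t) := by
    apply joint_int (g := fun τ y => gr2 (WW (u τ)) y) _ (by linarith) ht.2
    unfold gr2
    exact continuousOn_finsetSum _ fun i _ =>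
      (W335.MD.pd_cont (g := fun τ y => WW (u τ) y) (hJnt T u hA.smooth_u).2.1 i).pow 2
  have hconst : IntegrableOn (fun _ : ℝ => C₁ * (K + K ^ 2 * 8)) (Ioo (t - s ^ 2) t) :=
    integrableOn_const (by rw [Real.volume_Ioo]; exact ENNReal.ofReal_ne_top)
  have h5 : ∫ τ in Ioo (t - s ^ 2) t, W221.NS.B2 x s (u τ) ≤
      ∫ τ in Ioo (t - s ^ 2) t, (C₁ * (K + K ^ 2 * 8) + C₁ * ∫ y in ball x s, gr2 (WW (u τ)) y) := by
    apply integral_mono_of_nonneg
    · exact Eventually.of_forall fun τ => integral_nonneg fun y => gsq_nn _ y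
    · exact hconst.add (hj.const_mul C₁)
    · rw [EventuallyLE, ae_restrict_iff' measurableSet_Ioo]
      exact Eventually.of_forall fun τ hτ => one τ hτ
  rw [integral_add hconst (hj.const_mul C₁), setIntegral_const, smul_eq_mul,
    Measure.real, Real.volume_Ioo, ENNReal.toReal_ofReal (by nlinarith [sq_nonneg s]),
    integral_const_mul] at h5
  have h6 := hcac t ht x (hx.trans q1) s ⟨hs.1, hs.2.trans (q5.trans q1)⟩
  have h7 : C₁ * ∫ τ in Ioo (t - s ^ 2) t, ∫ y in ball x s, gr2 (WW (u τ)) y ≤ C₁ * (C₂ * s ^ 2) :=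
    mul_le_mul_of_nonneg_left h6 hC₁.le
  have h8 : ∫ τ in Ioo (t - s ^ 2) t, W221.NS.B2 x s (u τ) ≤ C₃ * s ^ 2 := by
    rw [hC₃]
    have : t - (t - s ^ 2) = s ^ 2 := by ring
    rw [this] at h5
    linarith
  refine h8.trans ?_
  have h9 : C₃ * s ≤ ε := by
    have h10 : s ≤ ε / (C₃ + 1) := hs.2.trans q7
    rw [le_div_iff₀ (by positivity)] at h10
    nlinarith [hs.1]
  nlinarith [hs.1]

end Pool.Agent.Q285.AXI
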