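import Pool.Agent.Q67.AXI.Defs
import Pool.Agent.Q95.CL.Reg

/-!
# Project AXI (helper67), job AXI-31 (REG)
-/

set_option autoImplicit false

open MeasureTheory Set Metric Filter Topology
open scoped ContDiff

namespace Pool.Agent.Q285.AXI

open H459R3.NS Pool.Agent.W268.NS Pool.Agent.Q67.VD
open Pool.Agent.Q85.CC Pool.Agent.Q85.CL Pool.Agent.TH305.AX Pool.Agent.Q67.AXI

theorem reg : StmReg := by
  intro K hK
  obtain ⟨ε, hε, h⟩ := Pool.Agent.Q95.CL.regK K hK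
  refine ⟨ε, hε, ?_⟩
  intro T E O u p hT hu y hy hMo hQt
  obtain ⟨T₁, r₁, ρ₁, hT₁, hT₁T, hr₁, hρ₁, h1⟩ := hMo
  obtain ⟨T₂, r₂, ρ₂, hT₂, hT₂T, hr₂, hρ₂, h2⟩ := hQt
  obtain ⟨ρ₃, hρ₃, hρO⟩ := Metric.nhds_basis_closedBall.mem_iff.1 (hu.openO.mem_nhds hy)
  obtain ⟨ρ, hρ⟩ : ∃ ρ : ℝ, ρ = min (min ρ₁ ρ₂) ρ₃ := ⟨_, rfl⟩
  have hρ0 : 0 < ρ := by rw [hρ]; exact lt_min (lt_min hρ₁ hρ₂) hρ₃
  have e1 : ρ ≤ ρ₁ := by rw [hρ]; exact (min_le_left _ _).trans (min_le_left _ _)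
  have e2 : ρ ≤ ρ₂ := by rw [hρ]; exact (min_le_left _ _).trans (min_le_right _ _)
  have e3 : ρ ≤ ρ₃ := by rw [hρ]; exact min_le_right _ _
  obtain ⟨B, δ, hδ, hB⟩ := h T E O u p hT hu (max T₁ T₂) (min r₁ r₂) ρ y
    (hT₁.trans (le_max_left _ _)) (max_lt hT₁T hT₂T) (lt_min hr₁ hr₂) hρ0
    ((closedBall_subset_closedBall e3).trans hρO)
    (fun t ht x hx r hr => h1 t ⟨(le_max_left _ _).trans_lt ht.1, ht.2⟩ x
      (closedBall_subset_closedBall e1 hx) r ⟨hr.1, hr.2.trans (min_le_left _ _)⟩)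
    (fun t ht x hx r hr => h2 t ⟨(le_max_right _ _).trans_lt ht.1, ht.2⟩ x
      (closedBall_subset_closedBall e2 hx) r ⟨hr.1, hr.2.trans (min_le_right _ _)⟩)
  refine ⟨B, min δ (ρ / 2), lt_min hδ (by positivity), fun t ht ht0 x hx => ?_⟩
  refine hB t ⟨?_, ht.2⟩ ht0 x ?_
  · have := ht.1
    have := min_le_left δ (ρ / 2)
    linarith
  · rw [mem_closedBall, dist_eq_norm]
    exact hx.trans (min_le_right _ _)

end Pool.Agent.Q285.AXI
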